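import Pool.Agent.H677_SC.Basic

set_option autoImplicit false

open Finset

namespace Pool.Agent.Results.MP_0a3b9a_nt.FalseAtEleven

/-- The generalised binomial coefficient `a (a - 1) ⋯ (a - k + 1) / k!`. -/
def gb (a : ℚ) (k : ℕ) : ℚ := (∏ i ∈ range k, (a - i)) / (k.factorial : ℚ)

/-- `S_1(p)`. -/
def S1 (p : ℕ) : ℚ := ∑ k ∈ range p, gb (-1 / 3) k * gb (-1 / 6) k * (27 / 2) ^ k

/-- `S_2(p)`. -/
def S2 (p : ℕ) : ℚ := ∑ k ∈ range p, gb (-2 / 3) k * gb (-5 / 6) k * (27 / 2) ^ k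

/-- `u ≡ v` modulo `p ^ m` for rationals with denominator prime to `p`: the difference is
`p ^ m` times a rational number whose denominator is not divisible by `p`. -/
def Congr (p m : ℕ) (u v : ℚ) : Prop := ∃ r : ℚ, ¬ p ∣ r.den ∧ u - v = (p : ℚ) ^ m * r

/-- The Legendre symbol of `e + f c / d` modulo `p` (the quotient taken modulo `p`). -/
def symb (p : ℕ) [Fact p.Prime] (e f c d : ℤ) : ℤ :=
  quadraticChar (ZMod p) ((e : ZMod p) + (f : ZMod p) * (c : ZMod p) / (d : ZMod p))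

/-- `R(p)` for the representation `p = c ^ 2 + 2 d ^ 2`. -/
def R (p : ℕ) [Fact p.Prime] (c d : ℤ) : ℚ :=
  if p % 24 = 1 ∨ p % 24 = 19 then
    (-1) ^ (p / 8) * (symb p (-2) (-1) c d : ℚ) * (2 * c - p / (2 * c))
  else (-1) ^ (p / 8) * (symb p 2 1 c d : ℚ) * (10 * d - 5 * p / (4 * d))

/-- `ε_p`. -/
def eps (p : ℕ) : ℚ := if p % 3 = 1 then 1 else -25 / 2

instance fact11 : Fact (Nat.Prime 11) := ⟨by norm_num⟩

/-- Q1 as posed is false: it fails for `p = 11 = (-3) ^ 2 + 2 * 1 ^ 2`. -/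
theorem result : ¬ ∀ (p : ℕ) [Fact p.Prime], (p % 8 = 1 ∨ p % 8 = 3) → p ≠ 3 →
    ∀ c d : ℤ, (p : ℤ) = c ^ 2 + 2 * d ^ 2 → c ≡ 1 [ZMOD 4] →
      Congr p 2 (S1 p) (eps p * S2 p) ∧ Congr p 2 (S1 p) (R p c d) := by
  intro h
  obtain ⟨r, hr, he⟩ := (h 11 (by norm_num) (by norm_num) (-3) 1 (by norm_num) (by decide)).2
  have hs : symb 11 2 1 (-3) 1 = -1 := by
    decide +kernel
  have hR : R 11 (-3) 1 = -15 / 4 := by
    rw [R, if_neg (by norm_num), hs]
    norm_num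
  rw [hR] at he
  have hS : S1 11 = 30767420521319755 / 67108864 := by
    decide +kernel
  have key := Pool.Agent.H677_SC.dvd_of_den (p := 11) (m := 2) (by norm_num) hr
    (d := 67108864)
    (N := 30767420772977995) (by
      rw [← he, hS]
      norm_num)
  revert key
  norm_num

end Pool.Agent.Results.MP_0a3b9a_nt.FalseAtEleven
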